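import Pool.Agent.H.MP_2bcfbf_mp.D

open Pool.Agent.H.MP_2bcfbf_mp

namespace Pool.Agent.Results.MP_2bcfbf_mp.Classify

theorem result (N : ℕ) (b b' : Fin N → Fin N → Fin N → ℂ) :
    IsNAP b b' ↔ ∃ (lam : Fin N → ℂ) (c : Fin N → Fin N → Fin N → ℂ) (ψ : Fin N → Fin N → ℂ),
      (∀ i j k, b i j k = c i j k - if i = k then lam j else 0) ∧
      (∀ i j k, b' i j k = - c j i k + if i = k then lam j else 0) ∧
      (∀ i j l m, ∑ k, c i j k * c k l m + (if l = m then ψ i j else 0) =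
        ∑ k, c j l k * c i k m + (if i = m then ψ j l else 0)) ∧
      ∀ i j l, ∑ k, c i j k * ψ k l = ∑ k, c j l k * ψ i k :=
  main b b'

end Pool.Agent.Results.MP_2bcfbf_mp.Classify
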